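import Pool.Agent.Q143.VC.Moves

/-!
# Vertex-centroid moves carry every simple polygon to a regular polygon

In terms of the vectors `w i = v i - m` from the centroid, a move of the vertex `i` is the linear map
`w i ↦ c w i`, `w k ↦ w k + (1 - c) / (n - 1) w i` for `k ≠ i`. The moves of two fixed vertices
generate a group containing all transvections of this pair (an explicit product of eight moves), and
from them one gets all the maps `w j ↦ w j + t w i`, `w l ↦ w l - t w i`. With these every
configuration with `w i, w j` independent is brought to a normal form.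
-/

set_option autoImplicit false

namespace Pool.Agent.Results.MP_06c496_co.AlwaysRegular

open Q143.VC

variable {n : ℕ} [NeZero n]

/-- The vertex centroid of a polygon in the plane `ℂ`. -/
noncomputable def centroid (v : ZMod n → ℂ) : ℂ := (∑ i, v i) / n

/-- A vertex-centroid move: a vertex `v i` different from the centroid `m` is replaced by a point of
the line through `v i` and `m`, i.e. by a point `m + t (v i - m)` with `t` real. -/
def Move (v v' : ZMod n → ℂ) : Prop :=
  ∃ i, v i ≠ centroid v ∧ ∃ t : ℝ, v' = Function.update v i (centroid v + t * (v i - centroid v))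

/-- The vertices of a convex regular `n`-gon in this cyclic order: `v i = c + ρ exp (2 π I i / n)`
with `ρ ≠ 0`. -/
def IsRegular (v : ZMod n → ℂ) : Prop :=
  ∃ c ρ : ℂ, ρ ≠ 0 ∧ ∀ i, v i = c + ρ * Complex.exp (2 * Real.pi * Complex.I * (i.val : ℂ) / n)

/-- A simple polygon: the vertices are distinct and two different sides meet at most in a common
endpoint. -/
def IsSimple (v : ZMod n → ℂ) : Prop :=
  Function.Injective v ∧ ∀ i j, i ≠ j →
    segment ℝ (v i) (v (i + 1)) ∩ segment ℝ (v j) (v (j + 1)) ⊆
      {v i, v (i + 1)} ∩ {v j, v (j + 1)}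

/-- The vectors from the centroid. -/
noncomputable def vec (v : ZMod n → ℂ) : ZMod n → ℂ := fun i => v i - centroid v

theorem vec_sum (v : ZMod n → ℂ) : ∑ i, vec v i = 0 := by
  unfold vec centroid
  rw [Finset.sum_sub_distrib, Finset.sum_const, Finset.card_univ, ZMod.card, nsmul_eq_mul]
  have : (n : ℂ) ≠ 0 := by exact_mod_cast NeZero.ne n
  field_simp
  ring

theorem exists_move (hn : 3 ≤ n) (v : ZMod n → ℂ) (w' : ZMod n → ℂ) (h : Step (vec v) w') :
    ∃ v', Relation.ReflTransGen Move v v' ∧ vec v' = w' := by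
  obtain ⟨i, c, -, rfl⟩ := h
  by_cases hi : v i = centroid v
  · refine ⟨v, Relation.ReflTransGen.refl, ?_⟩
    have h0 : vec v i = 0 := sub_eq_zero.2 hi
    funext k
    unfold stepFun
    by_cases hk : k = i
    · rw [if_pos hk, hk, h0, mul_zero]
    · rw [if_neg hk, h0, mul_zero, add_zero]
  · have hn0 : (n : ℂ) ≠ 0 := by exact_mod_cast NeZero.ne n
    have hn1 : (n : ℂ) - 1 ≠ 0 := by
      have : ((n - 1 : ℕ) : ℂ) ≠ 0 := by
        rw [Nat.cast_ne_zero]
        omega
      rwa [Nat.cast_sub (by omega), Nat.cast_one] at this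
    let τ : ℝ := (c - 1) * n / (n - 1)
    let v' := Function.update v i (centroid v + ((1 + τ : ℝ) : ℂ) * (v i - centroid v))
    refine ⟨v', Relation.ReflTransGen.single ⟨i, hi, 1 + τ, rfl⟩, ?_⟩
    have hτ : (τ : ℂ) = (c - 1) * n / (n - 1) := by
      simp only [τ]
      push_cast
      ring
    have hv'i : v' i = v i + τ * (v i - centroid v) := by
      simp only [v', Function.update_self]
      push_cast
      ring
    have hv'k : ∀ k, k ≠ i → v' k = v k := fun k hk => Function.update_of_ne hk _ _
    have hc : centroid v' = centroid v + τ * (v i - centroid v) / n := by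
      have : ∑ k, v' k = ∑ k, v k + τ * (v i - centroid v) := by
        rw [← Finset.add_sum_erase _ _ (Finset.mem_univ i),
          ← Finset.add_sum_erase _ v (Finset.mem_univ i), hv'i,
          Finset.sum_congr rfl fun k hk => hv'k k (Finset.ne_of_mem_erase hk)]
        ring
      change (∑ k, v' k) / n = _
      rw [this, add_div]
      rfl
    have hN : (N (ZMod n) : ℂ) = n := by simp [N, ZMod.card]
    funext k
    unfold stepFun vec
    rw [hc]
    by_cases hk : k = i
    · subst hk
      rw [if_pos rfl, hv'i, hτ]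
      field_simp
      ring
    · rw [if_neg hk, hv'k k hk, hτ]
      push_cast
      rw [hN]
      field_simp
      ring

theorem exists_moves (hn : 3 ≤ n) (v : ZMod n → ℂ) (w' : ZMod n → ℂ) (h : Eqv (vec v) w') :
    ∃ v', Relation.ReflTransGen Move v v' ∧ vec v' = w' := by
  induction h with
  | refl => exact ⟨v, Relation.ReflTransGen.refl, rfl⟩
  | tail _ hstep ih =>
    obtain ⟨v₁, h1, rfl⟩ := ih
    obtain ⟨v₂, h2, h3⟩ := exists_move hn v₁ _ hstep
    exact ⟨v₂, h1.trans h2, h3⟩

/-- The vertices of the standard regular polygon. -/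
noncomputable def reg (i : ZMod n) : ℂ := Complex.exp (2 * Real.pi * Complex.I * (i.val : ℂ) / n)

theorem reg_eq (i : ZMod n) : reg i = ZMod.stdAddChar i := by
  have := ZMod.stdAddChar_coe (N := n) (i.val : ℤ)
  rw [Int.cast_natCast, ZMod.natCast_zmod_val] at this
  rw [this, reg]
  push_cast
  rfl

omit [NeZero n] in
theorem reg_norm (i : ZMod n) : ‖reg i‖ = 1 := by
  unfold reg
  have : 2 * Real.pi * Complex.I * (i.val : ℂ) / n =
      ((2 * Real.pi * i.val / n : ℝ) : ℂ) * Complex.I := by
    push_cast
    ring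
  rw [this, Complex.norm_exp_ofReal_mul_I]

theorem reg_inj : Function.Injective (reg : ZMod n → ℂ) := by
  intro i j h
  rw [reg_eq, reg_eq] at h
  exact ZMod.injective_stdAddChar h

theorem reg_sum (hn : 3 ≤ n) : ∑ i : ZMod n, reg i = 0 := by
  have h1 : (ZMod.stdAddChar : AddChar (ZMod n) ℂ) ≠ 1 := by
    intro h
    have h1 : (1 : ZMod n) = 0 := by
      apply ZMod.injective_stdAddChar
      rw [h]
      simp
    have := congrArg ZMod.val h1
    rw [ZMod.val_one_eq_one_mod, ZMod.val_zero, Nat.mod_eq_of_lt (by omega)] at this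
    omega
  have := AddChar.sum_eq_zero_of_ne_one h1
  rw [← this]
  exact Finset.sum_congr rfl fun i _ => reg_eq i

theorem det_ne {x y : ℂ} (hx : ‖x‖ = 1) (hy : ‖y‖ = 1) (h : x ≠ y) (h' : y ≠ -x) :
    det x y ≠ 0 := by
  intro hd
  have hx' : x.re ^ 2 + x.im ^ 2 = 1 := by
    have := Complex.sq_norm x
    rw [hx, Complex.normSq_apply] at this
    linarith
  have hy' : y.re ^ 2 + y.im ^ 2 = 1 := by
    have := Complex.sq_norm y
    rw [hy, Complex.normSq_apply] at this
    linarith
  unfold det at hd
  have hdot : (x.re * y.re + x.im * y.im - 1) * (x.re * y.re + x.im * y.im + 1) = 0 := by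
    have : (x.re * y.re + x.im * y.im) ^ 2 + (x.re * y.im - x.im * y.re) ^ 2 =
        (x.re ^ 2 + x.im ^ 2) * (y.re ^ 2 + y.im ^ 2) := by ring
    rw [hx', hy', hd] at this
    linear_combination this
  rcases mul_eq_zero.1 hdot with h1 | h1
  · apply h
    have : (x.re - y.re) ^ 2 + (x.im - y.im) ^ 2 = 0 := by linear_combination hx' + hy' - 2 * h1
    have h2 : (x.re - y.re) ^ 2 = 0 := by nlinarith [sq_nonneg (x.re - y.re), sq_nonneg (x.im - y.im)]
    have h3 : (x.im - y.im) ^ 2 = 0 := by nlinarith [sq_nonneg (x.re - y.re), sq_nonneg (x.im - y.im)]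
    exact Complex.ext (sub_eq_zero.1 (pow_eq_zero_iff two_ne_zero |>.1 h2))
      (sub_eq_zero.1 (pow_eq_zero_iff two_ne_zero |>.1 h3))
  · apply h'
    have : (x.re + y.re) ^ 2 + (x.im + y.im) ^ 2 = 0 := by linear_combination hx' + hy' + 2 * h1
    have h2 : (x.re + y.re) ^ 2 = 0 := by nlinarith [sq_nonneg (x.re + y.re), sq_nonneg (x.im + y.im)]
    have h3 : (x.im + y.im) ^ 2 = 0 := by nlinarith [sq_nonneg (x.re + y.re), sq_nonneg (x.im + y.im)]
    have h4 := pow_eq_zero_iff two_ne_zero |>.1 h2
    have h5 := pow_eq_zero_iff two_ne_zero |>.1 h3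
    apply Complex.ext
    · rw [Complex.neg_re]
      linarith
    · rw [Complex.neg_im]
      linarith

/-- The standard regular polygon can be transformed so that two given vectors are independent. -/
theorem reg_indep (hn : 3 ≤ n) {i j : ZMod n} (hij : i ≠ j) :
    ∃ w : ZMod n → ℂ, Eqv w reg ∧ ∑ k, w k = 0 ∧ det (w i) (w j) ≠ 0 := by
  have h3 : 3 ≤ Fintype.card (ZMod n) := by rwa [ZMod.card]
  by_cases h : reg j = -reg i
  · obtain ⟨k, hk⟩ : ∃ k, k ∉ ({i, j} : Finset (ZMod n)) := by
      by_contra hcon
      push Not at hcon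
      have h1 : ({i, j} : Finset (ZMod n)) = Finset.univ := Finset.eq_univ_of_forall hcon
      have h2 : ({i, j} : Finset (ZMod n)).card ≤ 2 := Finset.card_le_two
      rw [h1, Finset.card_univ, ZMod.card] at h2
      omega
    simp only [Finset.mem_insert, Finset.mem_singleton, not_or] at hk
    have hik : i ≠ k := fun h => hk.1 h.symm
    have hkj : k ≠ j := hk.2
    have hd : det (reg i) (reg k) ≠ 0 := by
      refine det_ne (reg_norm i) (reg_norm k) (fun h => hik (reg_inj h)) fun h' => ?_
      rw [← h] at h'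
      exact hkj (reg_inj h')
    refine ⟨Can i k j (reg i) (reg k), (eqv_can h3 hik hij hkj reg (reg_sum hn) hd).symm,
      can_sum hik hij hkj _ _, ?_⟩
    have hji : j ≠ i := hij.symm
    have hjk : j ≠ k := hkj.symm
    simp only [Can, if_true, if_neg hji, if_neg hjk]
    have : det (reg i) (-reg i - reg k) = -det (reg i) (reg k) := by
      simp only [det, Complex.sub_re, Complex.sub_im, Complex.neg_re, Complex.neg_im]
      ring
    rw [this]
    exact neg_ne_zero.2 hd
  · exact ⟨reg, Eqv.refl _, reg_sum hn, det_ne (reg_norm i) (reg_norm j)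
      (fun h => hij (reg_inj h)) h⟩

theorem of_not_collinear (hn : 3 ≤ n) (v : ZMod n → ℂ) (hv : ¬ Collinear ℝ (Set.range v)) :
    ∃ v', Relation.ReflTransGen Move v v' ∧ IsRegular v' := by
  have h3 : 3 ≤ Fintype.card (ZMod n) := by rwa [ZMod.card]
  obtain ⟨i, j, hd⟩ : ∃ i j, det (vec v i) (vec v j) ≠ 0 := by
    by_contra hcon
    push Not at hcon
    apply hv
    by_cases h0 : ∀ i, vec v i = 0
    · have : Set.range v ⊆ {centroid v} := by
        rintro _ ⟨i, rfl⟩
        exact sub_eq_zero.1 (h0 i)
      exact (collinear_singleton ℝ (centroid v)).subset this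
    · push Not at h0
      obtain ⟨a, ha⟩ := h0
      rw [collinear_iff_exists_forall_eq_smul_vadd]
      refine ⟨centroid v, vec v a, ?_⟩
      rintro _ ⟨i, rfl⟩
      have hda := hcon a i
      have hnz : (vec v a).re ^ 2 + (vec v a).im ^ 2 ≠ 0 := by
        intro h
        apply ha
        have h2 : (vec v a).re ^ 2 = 0 := by nlinarith [sq_nonneg (vec v a).re, sq_nonneg (vec v a).im]
        have h3 : (vec v a).im ^ 2 = 0 := by nlinarith [sq_nonneg (vec v a).re, sq_nonneg (vec v a).im]
        exact Complex.ext (pow_eq_zero_iff two_ne_zero |>.1 h2) (pow_eq_zero_iff two_ne_zero |>.1 h3)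
      refine ⟨((vec v a).re * (vec v i).re + (vec v a).im * (vec v i).im) /
        ((vec v a).re ^ 2 + (vec v a).im ^ 2), ?_⟩
      have hvi : v i = vec v i + centroid v := by simp [vec]
      rw [vadd_eq_add]
      rw [hvi]
      congr 1
      unfold det at hda
      apply Complex.ext
      · rw [Complex.real_smul, Complex.mul_re, Complex.ofReal_re, Complex.ofReal_im]
        field_simp
        linear_combination (-(vec v a).im) * hda
      · rw [Complex.real_smul, Complex.mul_im, Complex.ofReal_re, Complex.ofReal_im]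
        field_simp
        linear_combination ((vec v a).re) * hda
  have hij : i ≠ j := by
    rintro rfl
    apply hd
    unfold det
    ring
  obtain ⟨w, hw, hws, hwd⟩ := reg_indep hn hij
  obtain ⟨v', hv', hvec⟩ := exists_moves hn v reg
    ((eqv_of_det h3 hij (vec_sum v) hws hd hwd).trans hw)
  refine ⟨v', hv', centroid v', 1, one_ne_zero, fun i => ?_⟩
  have := congrFun hvec i
  unfold vec reg at this
  rw [one_mul, ← this]
  ring

theorem mem_seg {p u : ℂ} {a b τ : ℝ} (hab : a < b) (h1 : a ≤ τ) (h2 : τ ≤ b) :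
    p + τ * u ∈ segment ℝ (p + a * u) (p + b * u) := by
  have hba : 0 < b - a := by linarith
  refine ⟨(b - τ) / (b - a), (τ - a) / (b - a), div_nonneg (by linarith) hba.le,
    div_nonneg (by linarith) hba.le, ?_, ?_⟩
  · field_simp
    ring
  · have hba' : (b : ℂ) - a ≠ 0 := by
      have : ((b - a : ℝ) : ℂ) ≠ 0 := by exact_mod_cast hba.ne'
      push_cast at this
      exact this
    rw [Complex.real_smul, Complex.real_smul]
    push_cast
    field_simp
    ring

theorem not_collinear_of_simple (hn : 3 ≤ n) {v : ZMod n → ℂ} (hv : IsSimple v) :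
    ¬ Collinear ℝ (Set.range v) := by
  intro hc
  rw [collinear_iff_exists_forall_eq_smul_vadd] at hc
  obtain ⟨p, u, h⟩ := hc
  choose! t ht using fun k : ZMod n => h (v k) ⟨k, rfl⟩
  have ht : ∀ k, v k = p + t k * u := by
    intro k
    rw [ht k, vadd_eq_add, Complex.real_smul, add_comm]
  have hinj : ∀ k l, t k = t l → k = l := fun k l hkl => hv.1 (by rw [ht k, ht l, hkl])
  have h10 : (1 : ZMod n) ≠ 0 := by
    intro h1
    have := congrArg ZMod.val h1
    rw [ZMod.val_one_eq_one_mod, ZMod.val_zero, Nat.mod_eq_of_lt (by omega)] at this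
    omega
  have hu : u ≠ 0 := by
    rintro rfl
    apply h10
    apply hv.1
    rw [ht, ht, mul_zero, mul_zero]
  obtain ⟨M, -, hM⟩ := Finset.exists_max_image Finset.univ t ⟨0, Finset.mem_univ _⟩
  have hlt : ∀ k, k ≠ M → t k < t M := fun k hk =>
    lt_of_le_of_ne (hM k (Finset.mem_univ _)) fun h => hk (hinj _ _ h)
  have hM1 : M - 1 ≠ M := fun h => h10 (by
    have := sub_eq_self.1 h
    exact this)
  have hM2 : M + 1 ≠ M := fun h => h10 (by
    have := add_eq_left.1 h
    exact this)
  have h1 := hlt _ hM1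
  have h2 := hlt _ hM2
  obtain ⟨τ, hτ1, hτ2⟩ : ∃ τ, max (t (M - 1)) (t (M + 1)) < τ ∧ τ < t M :=
    exists_between (max_lt h1 h2)
  have hτ3 := (le_max_left _ _).trans_lt hτ1
  have hτ4 := (le_max_right _ _).trans_lt hτ1
  have hq1 : p + τ * u ∈ segment ℝ (v (M - 1)) (v (M - 1 + 1)) := by
    rw [sub_add_cancel, ht (M - 1), ht M]
    exact mem_seg h1 hτ3.le hτ2.le
  have hq2 : p + τ * u ∈ segment ℝ (v M) (v (M + 1)) := by
    rw [segment_symm, ht (M + 1), ht M]
    exact mem_seg h2 hτ4.le hτ2.le
  have hne : ∀ k, t k ≠ τ → p + τ * u ≠ v k := by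
    intro k hk h
    rw [ht k] at h
    have h5 : (τ : ℂ) * u = t k * u := add_left_cancel h
    have h6 : (τ : ℂ) = t k := mul_right_cancel₀ hu h5
    exact hk (by exact_mod_cast h6.symm)
  have := (hv.2 _ _ hM1 ⟨hq1, hq2⟩).1
  rw [sub_add_cancel] at this
  rcases this with h | h
  · exact hne _ hτ3.ne h
  · exact hne _ hτ2.ne' h

/-- Let `n ≥ 3`. Every simple polygon with `n` vertices can be carried to a regular polygon by a
finite sequence of vertex-centroid moves; more generally this holds for every cyclically ordered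
`n`-tuple of points which do not all lie on one line. -/
theorem result (n : ℕ) [NeZero n] (hn : 3 ≤ n) :
    (∀ v : ZMod n → ℂ, IsSimple v → ∃ v', Relation.ReflTransGen Move v v' ∧ IsRegular v') ∧
    (∀ v : ZMod n → ℂ, ¬ Collinear ℝ (Set.range v) →
      ∃ v', Relation.ReflTransGen Move v v' ∧ IsRegular v') :=
  ⟨fun v hv => of_not_collinear hn v (not_collinear_of_simple hn hv), of_not_collinear hn⟩

end Pool.Agent.Results.MP_06c496_co.AlwaysRegular
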